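import Pool.Agent.K1H79.TW.GStm

/-! Project TW, part 2: the condition `Good3` passes to the quotient by a central subgroup of order `3`
(task 79322). -/

set_option autoImplicit false

namespace Pool.Agent.K1H79.TW

theorem t_QUO : S_QUO := by
  intro G Q _ _ _ π z hπ hz hz3 hker hG w hw hp h5
  set p := orderOf w with hpdef
  haveI : Fact p.Prime := ⟨hp⟩
  have hco : Nat.Coprime 3 p := by
    rw [Nat.coprime_primes Nat.prime_three hp]; omega
  have hk3 : ∀ t ∈ π.ker, t ^ 3 = 1 := by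
    intro t ht
    rw [hker] at ht
    obtain ⟨k, rfl⟩ := Subgroup.mem_zpowers_iff.mp ht
    rw [← zpow_natCast, ← zpow_mul, mul_comm, zpow_mul, zpow_natCast, ← hz3, pow_orderOf_eq_one,
      one_zpow]
  have hkc : ∀ t ∈ π.ker, ∀ g : G, g * t = t * g := by
    intro t ht g
    rw [hker] at ht
    obtain ⟨k, rfl⟩ := Subgroup.mem_zpowers_iff.mp ht
    exact Subgroup.mem_center_iff.mp (Subgroup.zpow_mem _ hz k) g
  have hk1 : ∀ t ∈ π.ker, t ^ p = 1 → t = 1 := by
    intro t ht h
    have h1 : orderOf t ∣ 3 := orderOf_dvd_of_pow_eq_one (hk3 t ht)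
    have h2 : orderOf t ∣ p := orderOf_dvd_of_pow_eq_one h
    have h3 : orderOf t ∣ 1 := by
      have := Nat.dvd_gcd h1 h2
      rwa [hco.gcd_eq_one] at this
    exact orderOf_eq_one_iff.mp (Nat.dvd_one.mp h3)
  obtain ⟨u, hu⟩ := hπ w
  obtain ⟨a, -, ha⟩ := Nat.exists_mul_mod_eq_one_of_coprime hco (by omega)
  have hwp : w ^ p = 1 := pow_orderOf_eq_one w
  have hw1 : w ≠ 1 := by
    intro h
    have : p = 1 := by rw [hpdef, h, orderOf_one]
    omega
  obtain ⟨v, hv⟩ : ∃ v, v = u ^ (3 * a) := ⟨_, rfl⟩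
  have hπv : π v = w := by
    rw [hv, map_pow, hu, ← pow_mod_orderOf, ← hpdef, ha, pow_one]
  have hvp : v ^ p = 1 := by
    have h1 : u ^ p ∈ π.ker := by
      rw [MonoidHom.mem_ker, map_pow, hu, hwp]
    calc v ^ p = ((u ^ p) ^ 3) ^ a := by
          rw [hv, ← pow_mul, ← pow_mul, ← pow_mul]
          congr 1
          ring
      _ = 1 := by rw [hk3 _ h1, one_pow]
  have hv1 : v ≠ 1 := by
    intro h
    rw [h, map_one] at hπv
    exact hw1 hπv.symm
  have hordv : orderOf v = p := orderOf_eq_prime hvp hv1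
  have hvc : v ∈ Subgroup.center G := by
    rw [Subgroup.mem_center_iff]
    intro g
    obtain ⟨c, hc⟩ : ∃ c, c = g * v * g⁻¹ * v⁻¹ := ⟨_, rfl⟩
    have hck : c ∈ π.ker := by
      rw [MonoidHom.mem_ker, hc, map_mul, map_mul, map_mul, map_inv, map_inv, hπv,
        Subgroup.mem_center_iff.mp hw (π g)]
      group
    have hgv : g * v * g⁻¹ = c * v := by rw [hc]; group
    have hcomm : Commute c v := (hkc c hck v).symm
    have h1 : (g * v * g⁻¹) ^ p = 1 := by
      rw [conj_pow, hvp]; group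
    rw [hgv, hcomm.mul_pow, hvp, mul_one] at h1
    have h2 := hk1 c hck h1
    rw [h2, one_mul] at hgv
    exact mul_inv_eq_iff_eq_mul.mp hgv
  obtain ⟨x, hx, hxv⟩ := hG v hvc (by rw [hordv]; exact hp) (by rw [hordv]; exact h5)
  rw [hordv] at hx
  have hxp : x ^ p = 1 := by rw [← hx]; exact pow_orderOf_eq_one x
  refine ⟨π x, ?_, ?_⟩
  · apply orderOf_eq_prime
    · rw [← map_pow, hxp, map_one]
    · intro h
      have : x = 1 := hk1 x h hxp
      apply hxv
      rw [this]
      exact Subgroup.one_mem _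
  · intro h
    obtain ⟨i, hi⟩ := Subgroup.mem_zpowers_iff.mp h
    obtain ⟨c, hc⟩ : ∃ c, c = x * (v ^ i)⁻¹ := ⟨_, rfl⟩
    have hck : c ∈ π.ker := by
      rw [MonoidHom.mem_ker, hc, map_mul, map_inv, map_zpow, hπv, hi, mul_inv_cancel]
    have hxc : x = c * v ^ i := by rw [hc]; group
    have hcomm : Commute c (v ^ i) := (hkc c hck (v ^ i)).symm
    have h1 : c ^ p = 1 := by
      have h2 := hxp
      rw [hxc, hcomm.mul_pow, ← zpow_natCast (v ^ i), ← zpow_mul, mul_comm i, zpow_mul,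
        zpow_natCast, hvp, one_zpow, mul_one] at h2
      exact h2
    have h3 := hk1 c hck h1
    apply hxv
    rw [hxc, h3, one_mul]
    exact Subgroup.zpow_mem _ (Subgroup.mem_zpowers v) i

end Pool.Agent.K1H79.TW
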